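import Pool.Agent.W_fb73a4_h51.Fin2

/-!
MP_fb73a4_co. Planar graphs without cycles of length 4, 5, 6 and without a 7-cycle that has an edge in
a triangle are 3-choosable. In particular, planar graphs without cycles of length 4, 5, 6, 7 are
3-choosable.
-/

set_option autoImplicit false

namespace Pool.Agent.Results.MP_fb73a4_co.SevenCycles

open Pool.Agent.W_fb73a4_h20

/-- Let `G` be a finite planar graph (MacLane's criterion) without cycles of length 4, 5, 6, such
that no 7-cycle has an edge which lies in a triangle (for example, without cycles of length 4, 5, 6,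
7). Then `G` is 3-choosable. -/
theorem result (V : Type) [Fintype V] (G : SimpleGraph V) (hplanar : MacLane G)
    (h456 : ∀ (v : V) (c : G.Walk v v), c.IsCycle →
      c.length ≠ 4 ∧ c.length ≠ 5 ∧ c.length ≠ 6)
    (h7 : ∀ (v : V) (c : G.Walk v v), c.IsCycle → c.length = 7 →
      ∀ a b t : V, s(a, b) ∈ c.edges → ¬ (G.Adj a t ∧ G.Adj b t))
    (L : V → Finset ℕ) (hL : ∀ v, 3 ≤ (L v).card) :
    ∃ f : V → ℕ, (∀ v, f v ∈ L v) ∧ ∀ u v, G.Adj u v → f u ≠ f v :=
  (Pool.Agent.W_fb73a4_h51.main_c7 G hplanar h456 h7).1 L hL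

end Pool.Agent.Results.MP_fb73a4_co.SevenCycles
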