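import Pool.Agent.W_fb73a4_h57.KX

/-!
MP_fb73a4_co. The Alon-Tarsi version (modulo 3) of the theorem of Kostochka and Yancey for `k = 4`.
-/

set_option autoImplicit false

namespace Pool.Agent.Results.MP_fb73a4_co.SparseAlonTarsi

open MvPolynomial

/-- Let `G` be a finite simple graph in which every nonempty vertex set `W` spans at most
`(5 |W| - 3) / 3` edges, and let `E` be an orientation of `G` (a multiset of ordered pairs which
contains every edge exactly once, in one of its two directions). Then the graph polynomial, the
product of `X u - X v` over the pairs `(u, v)` of `E`, has a monomial with all exponents at most 2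
whose coefficient is not divisible by 3. -/
theorem result (V : Type) [Fintype V] [DecidableEq V] (E : Multiset (V × V))
    (h : ∀ W : Finset V, W.Nonempty →
      3 * E.countP (fun e => e.1 ∈ W ∧ e.2 ∈ W) + 3 ≤ 5 * W.card) :
    ∃ d : V →₀ ℕ, (∀ v, d v ≤ 2) ∧
      ¬ (3 : ℤ) ∣ coeff d ((E.map fun e => (X e.1 - X e.2 : MvPolynomial V ℤ)).prod) :=
  Pool.Agent.W_fb73a4_h57.K_int E h

end Pool.Agent.Results.MP_fb73a4_co.SparseAlonTarsi
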