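import Pool.Agent.W_fb73a4_h57.PC

/-!
MP_fb73a4_co. Planar graphs without cycles of length 4, 5, 6 in which every set `W` of vertices
contains at most `(|W| + 6) / 3` triangles are 3-choosable.
-/

set_option autoImplicit false

namespace Pool.Agent.Results.MP_fb73a4_co.SparseTriangles

open Pool.Agent.W_fb73a4_h20

/-- Let `G` be a finite planar graph (MacLane's criterion) without cycles of length 4, 5, 6 such
that every set `W` of vertices contains at most `(|W| + 6) / 3` triangles of `G` (for example, such
that the triangles of `G` are pairwise disjoint). Then `G` is 3-choosable. -/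
theorem result (V : Type) [Fintype V] (G : SimpleGraph V) (hplanar : MacLane G)
    (h456 : ∀ (v : V) (c : G.Walk v v), c.IsCycle →
      c.length ≠ 4 ∧ c.length ≠ 5 ∧ c.length ≠ 6)
    (htri : ∀ W : Finset V, 3 * {T : Finset V | G.IsNClique 3 T ∧ T ⊆ W}.ncard ≤ W.card + 6)
    (L : V → Finset ℕ) (hL : ∀ v, 3 ≤ (L v).card) :
    ∃ f : V → ℕ, (∀ v, f v ∈ L v) ∧ ∀ u v, G.Adj u v → f u ≠ f v :=
  Pool.Agent.W_fb73a4_h57.planar456 G hplanar h456 htri L hL

end Pool.Agent.Results.MP_fb73a4_co.SparseTriangles
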